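import Pool.Agent.W69.DZ.Trace

/-! Distinct zeros with real part at least one half. -/

open Complex Filter Topology Set MeasureTheory
open scoped BigOperators ComplexConjugate

namespace W69DZ

open H370

/-- number of distinct zeros with `Re s ≥ 1/2` -/
noncomputable def NR (F : ℂ → ℂ) (T1 T2 : ℝ) : ℕ :=
  {s : ℂ | s ∈ zset F T1 T2 ∧ 1 / 2 ≤ s.re}.ncard

section

variable {F : ℂ → ℂ} (hF : GoodL F) {U1 U2 : ℝ} (hU : 1 ≤ U1)

include hF hU in
lemma NR_eq : NR F U1 U2 = ∑ s ∈ Zf F U1 U2, (if 1 / 2 ≤ s.re then 1 else 0) := by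
  classical
  have h : {s : ℂ | s ∈ zset F U1 U2 ∧ 1 / 2 ≤ s.re} =
      (((Zf F U1 U2).filter (fun s => 1 / 2 ≤ s.re) : Finset ℂ) : Set ℂ) := by
    ext s
    simp only [Set.mem_ofPred_eq, Finset.coe_filter, mem_Zf hF hU]
  unfold NR
  rw [h, Set.ncard_coe_finset, Finset.card_filter]

include hF hU in
/-- the reflection `s ↦ 1 - conj s` -/
theorem two_NR : 2 * NR F U1 U2 + NF F U1 U2 = 2 * Nd F U1 U2 := by
  classical
  have hPL : ∑ s ∈ Zf F U1 U2, (if 1 / 2 < s.re then 1 else 0) =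
      ∑ s ∈ Zf F U1 U2, (if s.re < 1 / 2 then 1 else 0) := by
    refine Finset.sum_nbij' (fun s => 1 - conj s) (fun s => 1 - conj s) ?_ ?_ ?_ ?_ ?_
    · intro s hs
      exact (mem_Zf hF hU).mpr (zset_refl hF hU ((mem_Zf hF hU).mp hs))
    · intro s hs
      exact (mem_Zf hF hU).mpr (zset_refl hF hU ((mem_Zf hF hU).mp hs))
    · intro s _; simp
    · intro s _; simp
    · intro s _
      have hre : (1 - conj s).re = 1 - s.re := by simp
      rw [hre]
      by_cases h : 1 / 2 < s.re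
      · rw [if_pos h, if_pos (by linarith)]
      · rw [if_neg h, if_neg (fun h2 => h (by linarith))]
  have hNd : Nd F U1 U2 = ∑ s ∈ Zf F U1 U2, 1 := by
    rw [Nd_card hF hU]; simp
  have key : 2 * NR F U1 U2 + NF F U1 U2 + ∑ s ∈ Zf F U1 U2, (if s.re < 1 / 2 then 1 else 0) =
      2 * Nd F U1 U2 + ∑ s ∈ Zf F U1 U2, (if 1 / 2 < s.re then 1 else 0) := by
    rw [NR_eq hF hU, NF_eq hF hU, hNd, Finset.mul_sum, Finset.mul_sum, ← Finset.sum_add_distrib,
      ← Finset.sum_add_distrib, ← Finset.sum_add_distrib]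
    refine Finset.sum_congr rfl fun s _ => ?_
    rcases lt_trichotomy s.re (1 / 2) with h | h | h
    · rw [if_neg (by linarith), if_neg h.ne, if_pos h, if_neg (by linarith)]
      norm_num
    · rw [if_pos h.ge, if_pos h, if_neg (by rw [h]; exact lt_irrefl _),
        if_neg (by rw [h]; exact lt_irrefl _)]
    · rw [if_pos h.le, if_neg h.ne', if_neg (by linarith), if_pos h]
  omega

end

end W69DZ
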