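import Pool.Agent.W69.DZ.Short
import Pool.Agent.W69.DZ.Right
import Pool.Agent.H295R2.SI.Fin

/-! The short interval theorem, assembled. -/

open Filter Topology Complex

namespace W69DZ

open H370

/-- every interval `(T, T + H]`, `T ^ h ≤ H ≤ T` -/
theorem short_all {F : ℂ → ℂ} (hF : GoodL F) (h ε : ℝ) (hh0 : 0 < h) (hh1 : h ≤ 1)
    (hε : 0 < ε) :
    ∃ T0 : ℝ, 1 ≤ T0 ∧ ∀ T : ℝ, T0 ≤ T → ∀ H : ℝ, T ^ h ≤ H → H ≤ T →
      (2 - H295SI.cc h - ε) * (NN F T (T + H) : ℝ) + 2 * EX F T (T + H) ≤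
        (Ns F T (T + H) : ℝ) ∧
      ((3 - H295SI.cc h) / 2 - ε) * (NN F T (T + H) : ℝ) + (EX F T (T + H) : ℝ) / 2 ≤
        (NR F T (T + H) : ℝ) ∧
      (Nd F T (T + H) : ℝ) = (NR F T (T + H) : ℝ) + (NF F T (T + H) : ℝ) / 2 := by
  obtain ⟨T0, hT1, hT0⟩ := W69DZ.main2 H255SI.winS H793SI.convS H218SI3.kSqS H228SI.constS
    H965SI.countShort (H613SI.pairShort H627SI.lamSmooth H228SI.qqJJ H965SI.countShort
      (H804JJ.jjShort H399SI.explShort Pool.Agent.H431R2.SI.outerShort)) hF h ε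
      hh0 hh1 hε
  refine ⟨T0, hT1, fun T hT H hH1 hH2 => ?_⟩
  obtain ⟨h1, h2⟩ := hT0 T hT H hH1 hH2
  have hT' : 1 ≤ T := hT1.trans hT
  have h3 := W69DZ.two_NR hF (U2 := T + H) hT'
  have h3' : 2 * (W69DZ.NR F T (T + H) : ℝ) + W69DZ.NF F T (T + H) =
      2 * H370.Nd F T (T + H) := by exact_mod_cast h3
  have h4 : (0 : ℝ) ≤ NN F T (T + H) := Nat.cast_nonneg _
  have h5 : 0 ≤ ε * (NN F T (T + H) : ℝ) := mul_nonneg hε.le h4
  refine ⟨h1, ?_, ?_⟩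
  · linarith
  · linarith

end W69DZ
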