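import Pool.Agent.W69.DZ.Dyadic
import Pool.Agent.H370R2.Expl3
import Pool.Agent.H370R2.Dyadic

/-! The dyadic theorem summed from `0` on, for the zeta function. -/

open Complex Filter Topology Set MeasureTheory

namespace W69DZ

open H370

/-- truncated multiplicities: `min m 2` on the line, `min m 1` off the line -/
noncomputable def gw (F : ℂ → ℂ) (s : ℂ) : ℕ :=
  if s.re = 1 / 2 then min (mult F s) 2 else min (mult F s) 1

/-- excess -/
noncomputable def ew (F : ℂ → ℂ) (s : ℂ) : ℕ :=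
  if s.re = 1 / 2 then mult F s - 2 else mult F s - 1

/-- sum of the truncated multiplicities -/
noncomputable def GG (F : ℂ → ℂ) (T1 T2 : ℝ) : ℕ := ∑ᶠ s ∈ zset F T1 T2, gw F s

lemma w_add (F : ℂ → ℂ) (s : ℂ) : mult F s = ew F s + gw F s := by
  unfold ew gw
  split_ifs <;> omega

lemma NN_split {F : ℂ → ℂ} {a b : ℝ} (hfin : (zset F a b).Finite) :
    NN F a b = EX F a b + GG F a b := by
  unfold NN EX GG
  rw [finsum_mem_eq_finite_toFinset_sum _ hfin, finsum_mem_eq_finite_toFinset_sum _ hfin,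
    finsum_mem_eq_finite_toFinset_sum _ hfin, ← Finset.sum_add_distrib]
  exact Finset.sum_congr rfl fun s _ => w_add F s

lemma GG_mono {F : ℂ → ℂ} {a a' b : ℝ} (hfin : (zset F a' b).Finite) (h : a' ≤ a) :
    GG F a b ≤ GG F a' b := by
  have hsub := zset_mono F h (le_refl b)
  unfold GG
  rw [finsum_mem_eq_finite_toFinset_sum _ hfin,
    finsum_mem_eq_finite_toFinset_sum _ (hfin.subset hsub)]
  apply Finset.sum_le_sum_of_subset
  intro s hs
  rw [Set.Finite.mem_toFinset] at hs ⊢
  exact hsub hs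

lemma GG_add {F : ℂ → ℂ} (hF : GoodL F) {a b c : ℝ} (h : 1 ≤ a) (hab : a ≤ b)
    (hbc : b ≤ c) : GG F a c = GG F a b + GG F b c := by
  unfold GG
  rw [← finsum_mem_union ?_ (zset_finite hF a b h) (zset_finite hF b c (h.trans hab))]
  · have hset : zset F a c = zset F a b ∪ zset F b c := by
      ext s
      simp only [zset, Set.mem_ofPred_eq, Set.mem_union]
      constructor
      · rintro ⟨a1, a2, a3, a4, a5⟩
        rcases le_or_gt s.im b with h1 | h1
        · exact Or.inl ⟨a1, a2, a3, h1, a5⟩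
        · exact Or.inr ⟨a1, a2, h1, a4, a5⟩
      · rintro (⟨a1, a2, a3, a4, a5⟩ | ⟨a1, a2, a3, a4, a5⟩)
        · exact ⟨a1, a2, a3, a4.trans hbc, a5⟩
        · exact ⟨a1, a2, hab.trans_lt a3, a4, a5⟩
    rw [hset]
  · rw [Set.disjoint_left]
    rintro s ⟨a1, a2, a3, a4, a5⟩ ⟨b1, b2, b3, b4, b5⟩
    linarith

/-- `N_s(T) ≥ 0.6726 N(T) + 2 E(T)` -/
theorem zeta_simple : ∃ T0 : ℝ, ∀ T : ℝ, T0 ≤ T →
    0.6726 * (NN riemannZeta 0 T : ℝ) + 2 * (EX riemannZeta 0 T : ℝ) ≤
      (Ns riemannZeta 0 T : ℝ) := by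
  obtain ⟨T0, hT0⟩ := main_of_Y2 good_zeta 0.67248 0.00011 0.000109 (by norm_num) (by norm_num)
    (by norm_num) (by have := H370.Expl.cMTinv_num; norm_num at this ⊢; linarith)
    H370.Expl.yhyp_explicit
  obtain ⟨X0, hX0⟩ := dyadic_zero good_zeta zeta_zeros_finite
    (fun a b => Ns riemannZeta a b + 2 * GG riemannZeta a b)
    (fun a b c h1 h2 h3 => by
      have e1 := Ns_add good_zeta h1 h2 h3
      have e2 := GG_add good_zeta h1 h2 h3
      show Ns riemannZeta a c + 2 * GG riemannZeta a c = _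
      rw [e1, e2]; ring)
    (fun a X ha => by
      have e1 : Ns riemannZeta a X ≤ Ns riemannZeta 0 X :=
        Set.ncard_le_ncard (fun s hs => ⟨zset_mono _ ha le_rfl hs.1, hs.2⟩)
          ((zeta_zeros_finite X).subset fun s hs => hs.1)
      have e2 := GG_mono (zeta_zeros_finite X) ha
      show Ns riemannZeta a X + 2 * GG riemannZeta a X ≤ _
      omega)
    (2.672605) (2.6726) (max T0 1) (by norm_num) (by norm_num) (fun T hT => by
      have h1 := (hT0 T ((le_max_left _ _).trans hT)).1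
      have hT1 : 1 ≤ T := (le_max_right _ _).trans hT
      have h2 := NN_split (zset_finite good_zeta T (2 * T) hT1)
      have h2' : (NN riemannZeta T (2 * T) : ℝ) =
          EX riemannZeta T (2 * T) + GG riemannZeta T (2 * T) := by exact_mod_cast h2
      have h3 := H370.Expl.cMTinv_num
      have h4 : (0 : ℝ) ≤ NN riemannZeta T (2 * T) := Nat.cast_nonneg _
      have h5 : (0.672605 : ℝ) * (NN riemannZeta T (2 * T) : ℝ) ≤
          (2 - cMTinv + 0.000109) * (NN riemannZeta T (2 * T) : ℝ) := by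
        apply mul_le_mul_of_nonneg_right _ h4
        norm_num at h3 ⊢
        linarith
      push_cast
      linarith)
  refine ⟨X0, fun T hT => ?_⟩
  have h1 := hX0 T hT
  have h2 := NN_split (zeta_zeros_finite T)
  have h2' : (NN riemannZeta 0 T : ℝ) = EX riemannZeta 0 T + GG riemannZeta 0 T := by
    exact_mod_cast h2
  push_cast at h1
  linarith

end W69DZ
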