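import Pool.Agent.W69.DZ.Trace
import Pool.Agent.H602R2.SI.MainShort

/-! The short interval theorem with the additional terms. -/

open Complex Filter Topology Set MeasureTheory

namespace W69DZ

open H370 H295SI

theorem main2 (h1 : WinS) (h2 : ConvS) (h3 : KSqS) (h4 : ConstS)
    (h9 : CountShort) (h12 : PairShort) {F : ℂ → ℂ} (hF : GoodL F) (h ε : ℝ) (hh0 : 0 < h)
    (hh1 : h ≤ 1) (hε : 0 < ε) :
    ∃ T0 : ℝ, 1 ≤ T0 ∧ ∀ T : ℝ, T0 ≤ T → ∀ H : ℝ, T ^ h ≤ H → H ≤ T →
      (2 - cc h - ε) * (NN F T (T + H) : ℝ) + 2 * EX F T (T + H) ≤ (Ns F T (T + H) : ℝ) ∧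
      (3 - cc h - ε) * (NN F T (T + H) : ℝ) + EX F T (T + H) + NF F T (T + H) ≤
        2 * (Nd F T (T + H) : ℝ) := by
  have hs2 : 0 < Real.sqrt 2 := Real.sqrt_pos.2 (by norm_num)
  set s : ℝ := Real.sqrt 2 * h with hs
  have hs0 : 0 < s := by positivity
  have hs1 : s ≤ Real.sqrt 2 := by
    rw [hs]
    nlinarith
  have hW := h1 s hs0 hs1
  have hC := h2 s hs0 hs1
  have hK := h3 s hs0 hs1
  have hc := h4 h hh0 hh1
  rw [← hs] at hc
  set R : ℝ → ℝ := RS s with hR
  set J : ℝ := ∫ α in (0 : ℝ)..1, α * R α with hJ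
  have hJ0 : 0 ≤ J := by
    apply intervalIntegral.integral_nonneg (by norm_num)
    intro u hu
    exact mul_nonneg hu.1 (hC.nonneg u)
  have hR0 : 0 ≤ R 0 := hC.nonneg 0
  have hcR : ∀ x, cR R x = R 0 / x + 2 * x * J := fun x => rfl
  have hcc0 : 0 ≤ cc h := by
    rw [← hc, hcR]
    positivity
  set e : ℝ := min ε 1 with he
  have he0 : 0 < e := lt_min hε one_pos
  have he1 : e ≤ ε := min_le_left _ _
  have he2 : e ≤ 1 := min_le_right _ _
  set K : ℝ := 4 + cc h with hKdef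
  have hK1 : 1 ≤ K := by linarith
  have hK0 : 0 < K := by linarith
  set η : ℝ := e / (80 * K) with hη
  have hη0 : 0 < η := by positivity
  have hηK : K * η = e / 80 := by rw [hη]; field_simp
  have hηe : η ≤ e / 80 := by
    rw [← hηK]
    nlinarith
  set δ : ℝ := min (h / 2) (e * h ^ 2 / (8 * (R 0 + 1))) with hδ
  have hδ0 : 0 < δ := lt_min (by positivity) (by positivity)
  have hδ1 : δ ≤ h / 2 := min_le_left _ _
  have hδ2 : δ * (8 * (R 0 + 1)) ≤ e * h ^ 2 := by
    have := min_le_right (h / 2) (e * h ^ 2 / (8 * (R 0 + 1)))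
    rw [← hδ, le_div_iff₀ (by positivity)] at this
    exact this
  -- the constant at `h - δ`
  have hcδ : cR R (h - δ) ≤ cc h + e / 4 := by
    rw [hcR, ← hc, hcR]
    have hhδ : 0 < h - δ := by linarith
    have h5 : R 0 / (h - δ) ≤ R 0 / h + e / 4 := by
      rw [div_le_iff₀ hhδ, add_mul, div_mul_eq_mul_div, ← sub_le_iff_le_add, ]
      have h6 : R 0 - e / 4 * (h - δ) ≤ R 0 * (h - δ) / h := by
        rw [le_div_iff₀ hh0]
        nlinarith [mul_nonneg hR0 hδ0.le, mul_pos he0 hh0]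
      linarith
    have h7 : 2 * (h - δ) * J ≤ 2 * h * J := by nlinarith
    linarith
  obtain ⟨T2, hT2, hPC⟩ := h12 (gS s) R hW hC hK F hF h δ η hδ0 (by linarith) hh1 hη0
  obtain ⟨C, hC0, hends⟩ := h9 F hF
  set B : ℝ := max 3 (2 * Real.pi * C * (80 * K) / e) with hB
  have hB3 : 3 ≤ B := le_max_left _ _
  refine ⟨max (max 10 T2) (B ^ (1 / h)), le_trans (by norm_num) ((le_max_left _ _).trans
    (le_max_left _ _)), fun T hT H hH1 hH2 => ?_⟩
  have hT10 : 10 ≤ T := ((le_max_left _ _).trans (le_max_left _ _)).trans hT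
  have hTT2 : T2 ≤ T := ((le_max_right _ _).trans (le_max_left _ _)).trans hT
  have hTB : B ≤ T ^ h := by
    have h5 : B ^ (1 / h) ≤ T := (le_max_right _ _).trans hT
    have h6 := Real.rpow_le_rpow (Real.rpow_nonneg (by linarith) _) h5 hh0.le
    rw [← Real.rpow_mul (by linarith), one_div_mul_cancel hh0.ne', Real.rpow_one] at h6
    exact h6
  have hHB : B ≤ H := hTB.trans hH1
  have hH3 : 3 ≤ H := hB3.trans hHB
  have hHC : 2 * Real.pi * C * (80 * K) / e ≤ H := (le_max_right _ _).trans hHB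
  obtain ⟨U1, U2, hU1, hU1', hU2, hU2', hNN, hQQ⟩ := hPC T hTT2 H hH1 hH2
  have hL : 0 < Real.log T := Real.log_pos (by linarith)
  set M : ℝ := H * Real.log T / (2 * Real.pi) with hM
  have hpi := Real.pi_pos
  have hM0 : 0 < M := by positivity
  have hTL : H * Real.log T = 2 * Real.pi * M := by rw [hM]; field_simp
  rw [hTL] at hNN
  have hpi2 : Real.pi < 3.15 := Real.pi_lt_d2
  have hηM : η * (2 * Real.pi * M) ≤ 7 * (η * M) := by
    have : 2 * Real.pi ≤ 7 := by linarith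
    calc η * (2 * Real.pi * M) = (η * M) * (2 * Real.pi) := by ring
      _ ≤ (η * M) * 7 := by
        apply mul_le_mul_of_nonneg_left this (by positivity)
      _ = 7 * (η * M) := by ring
  obtain ⟨hNNl, hNNu⟩ := abs_le.mp hNN
  have hU : 1 ≤ U1 := by linarith
  obtain ⟨hb1, hb2⟩ := trace2 hF hU hW ((h - δ) * Real.log T)
  have hQ : QQG (gS s) F ((h - δ) * Real.log T) U1 U2 ≤ M * (cc h + e / 4 + η) := by
    refine hQQ.trans ?_
    exact mul_le_mul_of_nonneg_left (by linarith) hM0.le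
  have hT1 : 1 ≤ T := by linarith
  have hNsm : (Ns F U1 U2 : ℝ) ≤ Ns F T (T + H) := by
    exact_mod_cast Ns_mono hF hT1 hU1 hU2'
  have hNdm : (Nd F U1 U2 : ℝ) ≤ Nd F T (T + H) := by
    exact_mod_cast Nd_mono hF hT1 hU1 hU2'
  obtain ⟨hE1, hE2⟩ := EX_mono hF hT1 hU1 hU2'
  have hE1' : (EX F T (T + H) : ℝ) + NN F U1 U2 ≤ EX F U1 U2 + NN F T (T + H) := by
    exact_mod_cast hE1
  have hE2' : (EX F T (T + H) : ℝ) + NF F T (T + H) + NN F U1 U2 ≤
      EX F U1 U2 + NF F U1 U2 + NN F T (T + H) := by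
    exact_mod_cast hE2
  have hNNm : (NN F U1 U2 : ℝ) ≤ NN F T (T + H) := by
    exact_mod_cast NN_mono hF hT1 hU1 hU2'
  have hend := (hends T hT10 H hH3 hH2 U1 U2 hU1 hU1' hU2 hU2').2
  have hCL : C * Real.log T ≤ η * M := by
    rw [hM]
    rw [div_le_iff₀ he0] at hHC
    have : η * (H * Real.log T / (2 * Real.pi)) =
      (H * e) * (Real.log T / (160 * K * Real.pi)) := by rw [hη]; field_simp; ring
    rw [this]
    calc C * Real.log T = (2 * Real.pi * C * (80 * K)) * (Real.log T / (160 * K * Real.pi)) := by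
          field_simp; ring
      _ ≤ (H * e) * (Real.log T / (160 * K * Real.pi)) :=
        mul_le_mul_of_nonneg_right hHC (by positivity)
  have hNN0 : (0 : ℝ) ≤ NN F T (T + H) := Nat.cast_nonneg _
  have heM : 0 < e * M := by positivity
  have hηM0 : 0 < η * M := by positivity
  have hηeM : η * M ≤ e * M / 80 := by
    have := mul_le_mul_of_nonneg_right hηe hM0.le
    linarith
  have hKηM : K * (η * M) = e * M / 80 := by
    rw [← mul_assoc, hηK]; ring
  -- `κ N ≤ κ M + e M / 10` for `|κ| ≤ K`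
  have hκ : ∀ κ : ℝ, |κ| ≤ K → κ * (NN F T (T + H) : ℝ) ≤ κ * M + e * M / 10 := by
    intro κ hκ
    have a1 : |(NN F T (T + H) : ℝ) - M| ≤ 8 * (η * M) := by
      rw [abs_le]; constructor <;> linarith
    have a2 : κ * ((NN F T (T + H) : ℝ) - M) ≤ K * (8 * (η * M)) := by
      refine (le_abs_self _).trans ?_
      rw [abs_mul]
      exact mul_le_mul hκ a1 (abs_nonneg _) hK0.le
    have a3 : K * (8 * (η * M)) = 8 * (e * M / 80) := by rw [← hKηM]; ring
    rw [a3] at a2
    linarith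
  have h8 : M * (cc h + e / 4 + η) = cc h * M + e * M / 4 + η * M := by ring
  rw [h8] at hQ
  constructor
  · have b1 : (2 - cc h - ε) * (NN F T (T + H) : ℝ) ≤ (2 - cc h - e) * (NN F T (T + H) : ℝ) :=
      mul_le_mul_of_nonneg_right (by linarith) hNN0
    have b2 := hκ (2 - cc h - e) (by rw [abs_le]; constructor <;> linarith)
    have b3 : (2 - cc h - e) * M = 2 * M - cc h * M - e * M := by ring
    rw [b3] at b2
    linarith
  · have b1 : (3 - cc h - ε) * (NN F T (T + H) : ℝ) ≤ (3 - cc h - e) * (NN F T (T + H) : ℝ) :=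
      mul_le_mul_of_nonneg_right (by linarith) hNN0
    have b2 := hκ (3 - cc h - e) (by rw [abs_le]; constructor <;> linarith)
    have b3 : (3 - cc h - e) * M = 3 * M - cc h * M - e * M := by ring
    rw [b3] at b2
    linarith

end W69DZ
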