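import Pool.Agent.H143R2.TraceG

/-!
The trace inequality for the zeros with the terms for the zeros off the line and for the
multiplicities beyond two.
-/

open Complex Filter Topology Set MeasureTheory
open scoped BigOperators ComplexConjugate

namespace W69DZ

open H370 H295SI H143TG

/-- excess multiplicity: `m - 2` on the line (if `m ≥ 2`), `m - 1` off the line -/
noncomputable def EX (F : ℂ → ℂ) (T1 T2 : ℝ) : ℕ :=
  ∑ᶠ s ∈ zset F T1 T2, (if s.re = 1 / 2 then mult F s - 2 else mult F s - 1)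

/-- number of distinct zeros off the line -/
noncomputable def NF (F : ℂ → ℂ) (T1 T2 : ℝ) : ℕ :=
  {s : ℂ | s ∈ zset F T1 T2 ∧ s.re ≠ 1 / 2}.ncard

section

variable {F : ℂ → ℂ} (hF : GoodL F) {U1 U2 : ℝ} (hU : 1 ≤ U1)

include hF hU in
lemma EX_eq : EX F U1 U2 =
    ∑ s ∈ Zf F U1 U2, (if s.re = 1 / 2 then mult F s - 2 else mult F s - 1) :=
  finsum_Zf hF hU _

include hF hU in
lemma NF_eq : NF F U1 U2 = ∑ s ∈ Zf F U1 U2, (if s.re = 1 / 2 then 0 else 1) := by
  classical
  have h : {s : ℂ | s ∈ zset F U1 U2 ∧ s.re ≠ 1 / 2} =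
      (((Zf F U1 U2).filter (fun s => ¬ s.re = 1 / 2) : Finset ℂ) : Set ℂ) := by
    ext s
    simp only [Set.mem_ofPred_eq, Finset.coe_filter, mem_Zf hF hU, ne_eq]
  unfold NF
  rw [h, Set.ncard_coe_finset, Finset.card_filter]
  refine Finset.sum_congr rfl fun s _ => ?_
  by_cases hs : s.re = 1 / 2
  · rw [if_pos hs, if_neg (fun hn => hn hs)]
  · rw [if_neg hs, if_pos hs]

include hF hU in
theorem trace2 {g : ℝ → ℝ} (hg : Win g) (Λ : ℝ) :
    2 * (NN F U1 U2 : ℝ) - QQG g F Λ U1 U2 + 2 * EX F U1 U2 ≤ Ns F U1 U2 ∧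
    3 * (NN F U1 U2 : ℝ) - QQG g F Λ U1 U2 + EX F U1 U2 + NF F U1 U2 ≤ 2 * Nd F U1 U2 := by
  classical
  obtain ⟨E, iE1, iE2, k, hk⟩ := gramG_exists hg Λ
  set W := Zf F U1 U2 with hW
  have hinj : Set.InjOn zz (W : Set ℂ) := fun s _ s' _ h => zz_inj h
  set Z : Finset ℂ := W.image zz with hZ
  set m : ℂ → ℕ := fun z => mult F (1 / 2 + I * z) with hm
  have hback : ∀ s : ℂ, (1 / 2 + I * zz s) = s := by
    intro s
    have := zz_spec s
    linear_combination -this
  have hmz : ∀ s : ℂ, m (zz s) = mult F s := by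
    intro s; simp only [hm]; rw [hback]
  have hWm : ∀ s ∈ W, s ∈ zset F U1 U2 := fun s hs => (mem_Zf hF hU).mp hs
  have hWpos : ∀ s ∈ W, 1 ≤ mult F s := by
    intro s hs
    have := hWm s hs
    exact Loc.mult_pos' hF (by linarith [this.2.2.1]) this.2.2.2.2
  -- the filtered sets
  have hf1 : Z.filter (fun z => z.im = 0 ∧ m z = 1) =
      (W.filter (fun s => s.re = 1 / 2 ∧ mult F s = 1)).image zz := by
    ext z
    simp only [Finset.mem_filter, Finset.mem_image, hZ]
    constructor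
    · rintro ⟨⟨s, hs, rfl⟩, h1, h2⟩
      rw [hmz] at h2
      rw [zz_im] at h1
      exact ⟨s, ⟨hs, by linarith, h2⟩, rfl⟩
    · rintro ⟨s, ⟨hs, h1, h2⟩, rfl⟩
      refine ⟨⟨s, hs, rfl⟩, ?_, ?_⟩
      · rw [zz_im, h1]; ring
      · rw [hmz, h2]
  have hsum1 : ∀ {M : Type} [AddCommMonoid M] (f : ℂ → M),
      ∑ z ∈ Z.filter (fun z => z.im = 0 ∧ m z = 1), f z = ∑ x ∈ SF F U1 U2, f (x : ℂ) := by
    intro M _ f
    rw [hf1, Finset.sum_image (fun s _ s' _ h => zz_inj h), sum_SF]
    refine Finset.sum_congr rfl fun s hs => ?_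
    rw [zz_simple (Finset.mem_filter.mp hs).2.1]
  have hcard1 : ((Z.filter (fun z => z.im = 0 ∧ m z = 1)).card : ℝ) = Ns F U1 U2 := by
    rw [Ns_card hF hU, Finset.card_eq_sum_ones, hsum1, ← Finset.card_eq_sum_ones]
  have hsumZ : ∀ {M : Type} [AddCommMonoid M] (f : ℂ → M),
      ∑ z ∈ Z, f z = ∑ s ∈ W, f (zz s) := by
    intro M _ f
    rw [hZ, Finset.sum_image (fun s _ s' _ h => zz_inj h)]
  have hN : ∑ z ∈ Z, (m z : ℝ) = NN F U1 U2 := by
    rw [NN_eq hF hU, hsumZ]
    simp only [hmz]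
    push_cast; rfl
  have hZc : ∀ z ∈ Z, conj z ∈ Z := by
    intro z hz
    rw [hZ, Finset.mem_image] at hz
    obtain ⟨s, hs, rfl⟩ := hz
    rw [← zz_refl]
    exact Finset.mem_image_of_mem _ ((mem_Zf hF hU).mpr (zset_refl hF hU (hWm s hs)))
  have hmp : ∀ z ∈ Z, 1 ≤ m z := by
    intro z hz
    rw [hZ, Finset.mem_image] at hz
    obtain ⟨s, hs, rfl⟩ := hz
    rw [hmz]
    exact hWpos s hs
  have hT := trace_ineq (phiG g Λ) k hk (phiG_even hg Λ) (phiG_zero hg Λ) Z hZc m hmp ?_
    (fun _ _ => 0) ?_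
  · -- main
    have h00 : (2 * ∑ x ∈ Z.filter (fun z => z.im = 0 ∧ m z = 1),
            ∑ y ∈ Z.filter (fun z => z.im = 0 ∧ m z = 1),
              (0 : ℝ) * ((phiG g Λ (x - y)).re - if x = y then 1 else 0)
          - ∑ x ∈ Z.filter (fun z => z.im = 0 ∧ m z = 1),
            ∑ y ∈ Z.filter (fun z => z.im = 0 ∧ m z = 1), (0 : ℝ) ^ 2) = 0 := by
      simp
    rw [h00, add_zero, hcard1, hN] at hT
    have hB : (Z.filter (fun z => z.im < 0)).card = (Z.filter (fun z => 0 < z.im)).card := by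
      refine Finset.card_bij' (fun z _ => conj z) (fun z _ => conj z) ?_ ?_ ?_ ?_
      · intro z hz
        rw [Finset.mem_filter] at hz ⊢
        exact ⟨hZc z hz.1, by rw [Complex.conj_im]; linarith [hz.2]⟩
      · intro z hz
        rw [Finset.mem_filter] at hz ⊢
        exact ⟨hZc z hz.1, by rw [Complex.conj_im]; linarith [hz.2]⟩
      · intro z _; simp
      · intro z _; simp
    set A : ℝ := ((Z.filter (fun z => z.im = 0 ∧ 2 ≤ m z)).card : ℝ) with hA
    set B : ℝ := ((Z.filter (fun z => 0 < z.im)).card : ℝ) with hBdef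
    have hb1 : ∑ z ∈ Z, (if z.im = 0 ∧ m z = 1 then (1 : ℝ) else 0) = Ns F U1 U2 := by
      rw [Finset.sum_boole, hcard1]
    have hb2 : ∑ z ∈ Z, (if z.im = 0 ∧ 2 ≤ m z then (1 : ℝ) else 0) = A := by
      rw [Finset.sum_boole]
    have hb3 : ∑ z ∈ Z, (if 0 < z.im then (1 : ℝ) else 0) = B := by
      rw [Finset.sum_boole]
    have hb4 : ∑ z ∈ Z, (if z.im < 0 then (1 : ℝ) else 0) = B := by
      rw [Finset.sum_boole, hB]
    have hEX : ∑ z ∈ Z, ((if z.im = 0 then m z - 2 else m z - 1 : ℕ) : ℝ) = EX F U1 U2 := by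
      rw [EX_eq hF hU, hsumZ]
      push_cast
      refine Finset.sum_congr rfl fun s _ => ?_
      rw [hmz, zz_im]
      by_cases hs : s.re = 1 / 2
      · rw [if_pos hs, if_pos (by rw [hs]; ring)]
      · rw [if_neg hs, if_neg (fun h => hs (by linarith))]
    have hNF : (NF F U1 U2 : ℝ) = 2 * B := by
      rw [NF_eq hF hU]
      push_cast
      have e : 2 * B = B + B := by ring
      rw [e]
      nth_rewrite 1 [← hb3]
      rw [← hb4, ← Finset.sum_add_distrib, hsumZ]
      refine Finset.sum_congr rfl fun s _ => ?_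
      rw [zz_im]
      rcases lt_trichotomy s.re (1 / 2) with h | h | h
      · rw [if_neg h.ne, if_pos (by linarith), if_neg (by linarith)]; norm_num
      · rw [if_pos h, if_neg (by rw [h]; norm_num), if_neg (by rw [h]; norm_num)]; norm_num
      · rw [if_neg h.ne', if_neg (by linarith), if_pos (by linarith)]; norm_num
    have hNN : (Ns F U1 U2 : ℝ) + 2 * A + 2 * B + EX F U1 U2 ≤ NN F U1 U2 := by
      have : ∑ z ∈ Z, ((if z.im = 0 ∧ m z = 1 then (1 : ℝ) else 0) +
          2 * (if z.im = 0 ∧ 2 ≤ m z then (1 : ℝ) else 0) + (if 0 < z.im then (1 : ℝ) else 0) +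
          (if z.im < 0 then (1 : ℝ) else 0) +
          ((if z.im = 0 then m z - 2 else m z - 1 : ℕ) : ℝ)) ≤ ∑ z ∈ Z, (m z : ℝ) := by
        refine Finset.sum_le_sum fun z hz => ?_
        have h1' := hmp z hz
        rcases lt_trichotomy z.im 0 with h | h | h
        · have h' : ¬ (0 < z.im) := by linarith
          have h4 : ((m z - 1 : ℕ) : ℝ) = (m z : ℝ) - 1 := by rw [Nat.cast_sub h1', Nat.cast_one]
          simp only [h.ne, false_and, if_false, h', h, if_true, h4]
          linarith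
        · by_cases h2 : m z = 1
          · simp [h, h2]
          · have h3 : 2 ≤ m z := by omega
            have h4 : ((m z - 2 : ℕ) : ℝ) = (m z : ℝ) - 2 := by
              rw [Nat.cast_sub h3]; norm_num
            simp only [h, h2, h3, and_false, and_true, if_true, if_false, lt_irrefl, h4]
            linarith
        · have h' : ¬ (z.im < 0) := by linarith
          have h4 : ((m z - 1 : ℕ) : ℝ) = (m z : ℝ) - 1 := by rw [Nat.cast_sub h1', Nat.cast_one]
          simp only [h.ne', false_and, if_false, h', h, if_true, h4]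
          linarith
      rw [Finset.sum_add_distrib, Finset.sum_add_distrib, Finset.sum_add_distrib,
        Finset.sum_add_distrib, ← Finset.mul_sum, hb1, hb2, hb3, hb4, hN, hEX] at this
      linarith
    have hND : (Ns F U1 U2 : ℝ) + A + 2 * B ≤ Nd F U1 U2 := by
      have hcz : (Nd F U1 U2 : ℝ) = ∑ z ∈ Z, (1 : ℝ) := by
        rw [Nd_card hF hU, hsumZ, ← hW]; simp
      rw [hcz, ← hb1, ← hb2]
      have e : 2 * B = B + B := by ring
      rw [e]
      nth_rewrite 1 [← hb3]
      rw [← hb4, ← Finset.sum_add_distrib, ← Finset.sum_add_distrib, ← Finset.sum_add_distrib]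
      refine Finset.sum_le_sum fun z hz => ?_
      rcases lt_trichotomy z.im 0 with h | h | h
      · have h' : ¬ (0 < z.im) := by linarith
        simp [h, h.ne, h']
      · by_cases h2 : m z = 1
        · simp [h, h2]
        · have h3 : 2 ≤ m z := by have := hmp z hz; omega
          simp [h, h2, h3]
      · have h' : ¬ (z.im < 0) := by linarith
        simp [h, h.ne', h']
    have hQ : (∑ z ∈ Z, ∑ w ∈ Z, (m z : ℂ) * (m w : ℂ) * (phiG g Λ (z - w)) ^ 2).re
        = QQG g F Λ U1 U2 := by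
      rw [QQG_eq hF hU, hsumZ]
      simp only [hsumZ, hmz, ← hW]
    rw [hQ] at hT
    have hBnn : 0 ≤ B := Nat.cast_nonneg _
    rw [hNF]
    constructor
    · linarith
    · linarith
  · intro z hz
    rw [hZ, Finset.mem_image] at hz
    obtain ⟨s, hs, rfl⟩ := hz
    have := hWm s hs
    rw [← zz_refl, hmz, hmz, mult_refl hF this.1 this.2.1 (by linarith [this.2.2.1])]
  · intro v
    simp only [zero_mul, Finset.sum_const_zero]
    exact Finset.sum_nonneg fun x _ => by positivity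

end

/-- enlarging the interval -/
theorem EX_mono {F : ℂ → ℂ} (hF : GoodL F) {a b a' b' : ℝ} (h : 1 ≤ a') (ha : a' ≤ a)
    (hb : b ≤ b') : EX F a' b' + NN F a b ≤ EX F a b + NN F a' b' ∧
    EX F a' b' + NF F a' b' + NN F a b ≤ EX F a b + NF F a b + NN F a' b' := by
  classical
  have h' : 1 ≤ a := h.trans ha
  have hsub : Zf F a b ⊆ Zf F a' b' := by
    intro s hs
    rw [mem_Zf hF h'] at hs
    rw [mem_Zf hF h]
    exact zset_mono F ha hb hs
  have key : ∀ f : ℂ → ℕ, (∀ s ∈ Zf F a' b', f s ≤ mult F s) →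
      ∑ s ∈ Zf F a' b', f s + ∑ s ∈ Zf F a b, mult F s ≤
        ∑ s ∈ Zf F a b, f s + ∑ s ∈ Zf F a' b', mult F s := by
    intro f hf
    have e1 := Finset.sum_sdiff (f := f) hsub
    have e2 := Finset.sum_sdiff (f := fun s => mult F s) hsub
    have e3 : ∑ s ∈ Zf F a' b' \ Zf F a b, f s ≤ ∑ s ∈ Zf F a' b' \ Zf F a b, mult F s :=
      Finset.sum_le_sum fun s hs => hf s (Finset.mem_sdiff.mp hs).1
    omega
  have hpos : ∀ s ∈ Zf F a' b', 1 ≤ mult F s := by
    intro s hs
    have hs' := (mem_Zf hF h).mp hs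
    exact Loc.mult_pos' hF (by linarith [hs'.2.2.1]) hs'.2.2.2.2
  rw [EX_eq hF h, EX_eq hF h', NF_eq hF h, NF_eq hF h', NN_eq hF h, NN_eq hF h']
  constructor
  · refine key _ fun s hs => ?_
    split_ifs <;> omega
  · have := key (fun s => (if s.re = 1 / 2 then mult F s - 2 else mult F s - 1) +
      (if s.re = 1 / 2 then 0 else 1)) (fun s hs => by
        have := hpos s hs
        split_ifs <;> omega)
    rw [Finset.sum_add_distrib, Finset.sum_add_distrib] at this
    exact this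

end W69DZ
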